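import Pool.Agent.Lib.MP_cca10c_ag.R30_Main
import Pool.Agent.Lib.MP_cca10c_ag.R31_StdPos

/-!
# The distortion of the Schottky locus is linear

For every `g ≥ 2` the distortion function of the Schottky locus in the moduli space of principally
polarized abelian varieties of dimension `g` has the growth type of the identity.
-/

set_option autoImplicit false

open Pool.Agent.Lib.MP_cca10c_ag

namespace Pool.Agent.Results.MP_cca10c_ag.LinearDistortion

theorem result : ∀ g : ℕ, 2 ≤ g → SameGrowth (distortion g) (fun r => ENNReal.ofReal r) :=
  main_of_stdPos fun g hg => std_pos g hg ⟨0, by omega⟩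

end Pool.Agent.Results.MP_cca10c_ag.LinearDistortion
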